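import Pool.Agent.H75.SG.GenC
import Pool.Agent.H84.TE.MainE

/-!
# Complemented subspaces of `C(K)` generated from `C(L)`, `L` countable compact, by extensions and countable amalgams

Let `Gen` be the least class of real normed spaces which contains `C(L)` for all countable compact Hausdorff `L` and is
closed under isomorphic embeddings, extensions and countable amalgams.  Every `X` in `Gen` which is complemented in a space
`C(K)` embeds into `C(L)` for some countable compact Hausdorff `L`, with the constant `‖P‖ ‖J‖ + ε`.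
-/

namespace Pool.Agent.Results.MP_6aa5e3_an.ExtensionsAndAmalgams

open Pool.Agent.H75.SG

theorem result : ∀ (X : Type) [NormedAddCommGroup X] [NormedSpace ℝ X] (K : Type)
    [TopologicalSpace K] [CompactSpace K] [T2Space K] (J : X →L[ℝ] C(K, ℝ))
    (P : C(K, ℝ) →L[ℝ] X), (∀ x, P (J x) = x) → Gen X →
    ∀ ε : ℝ, 0 < ε → ∃ (L : Type) (_ : TopologicalSpace L) (_ : CompactSpace L)
      (_ : T2Space L), Countable L ∧ ∃ S : X →L[ℝ] C(L, ℝ),
        ∀ x, ‖S x‖ ≤ ‖x‖ ∧ ‖x‖ ≤ (‖P‖ * ‖J‖ + ε) * ‖S x‖ := by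
  intro X _ _ K _ _ _ J P hPJ hX ε hε
  have h := smallBall_of_gen hX
  exact Pool.Agent.H84.TE.main J P (separable_of_smallBall h) hPJ h ε hε

end Pool.Agent.Results.MP_6aa5e3_an.ExtensionsAndAmalgams
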