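import Pool.Agent.H87.CS.Fin

/-!
# Nearly contractively complemented preduals of `ℓ₁`

Let `X` be a normed space whose dual is linearly isometric to `ℓ₁`, and let `K` be a compact Hausdorff space.  If the identity of `X`
factors as `P ∘ J` through `C(K)` with `‖P‖ ‖J‖ < 9 / 8`, then `X` is isomorphic to `C(L)` for some countable compact Hausdorff
space `L`.
-/

namespace Pool.Agent.Results.MP_6aa5e3_an.NearContractivePredual

theorem result (X : Type) [NormedAddCommGroup X] [NormedSpace ℝ X]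
    (Φ : (X →L[ℝ] ℝ) ≃ₗᵢ[ℝ] lp (fun _ : ℕ => ℝ) 1)
    (K : Type) [TopologicalSpace K] [CompactSpace K] [T2Space K]
    (J : X →L[ℝ] C(K, ℝ)) (P : C(K, ℝ) →L[ℝ] X)
    (hPJ : ∀ x, P (J x) = x) (h : ‖P‖ * ‖J‖ < 9 / 8) :
    ∃ (L : Type) (_ : TopologicalSpace L) (_ : CompactSpace L) (_ : T2Space L),
      Countable L ∧ Nonempty (X ≃L[ℝ] C(L, ℝ)) := by
  have hX : CompleteSpace X := by
    refine Metric.complete_of_cauchySeq_tendsto fun u hu => ?_
    obtain ⟨f, hf⟩ := cauchySeq_tendsto_of_complete (J.uniformContinuous.comp_cauchySeq hu)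
    refine ⟨P f, ?_⟩
    have h1 := (P.continuous.tendsto f).comp hf
    have h2 : (P ∘ J ∘ u) = u := by
      funext n
      exact hPJ (u n)
    rwa [h2] at h1
  obtain ⟨L, h1, h2, h3, h4, h5⟩ := Pool.Agent.H87.CS.main Φ J P hPJ h
  exact ⟨L, h1, h2, h3, h4, h5⟩

end Pool.Agent.Results.MP_6aa5e3_an.NearContractivePredual
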