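import Pool.Agent.H87.ZI.Main

/-!
# Nearly contractively complemented subspaces of `C(K)` with separable dual

There is `ε₀ > 0` such that: if `X` is a normed space with separable dual and the identity of `X` factors as `P ∘ J` through
`C(K)`, `K` compact Hausdorff, with `‖P‖ ‖J‖ < 1 + ε₀`, then `X` is isomorphic to `C(L)` for some countable compact
Hausdorff space `L`.
-/

namespace Pool.Agent.Results.MP_6aa5e3_an.NearContractiveProjection

theorem result : ∃ ε₀ : ℝ, 0 < ε₀ ∧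
    ∀ (X : Type) [NormedAddCommGroup X] [NormedSpace ℝ X] (K : Type) [TopologicalSpace K]
      [CompactSpace K] [T2Space K] (J : X →L[ℝ] C(K, ℝ)) (P : C(K, ℝ) →L[ℝ] X),
      TopologicalSpace.SeparableSpace (X →L[ℝ] ℝ) → (∀ x, P (J x) = x) →
      ‖P‖ * ‖J‖ < 1 + ε₀ →
      ∃ (L : Type) (_ : TopologicalSpace L) (_ : CompactSpace L) (_ : T2Space L),
        Countable L ∧ Nonempty (X ≃L[ℝ] C(L, ℝ)) := by
  obtain ⟨ε₀, h0, h⟩ := Pool.Agent.H87.ZI.main
  refine ⟨ε₀, h0, ?_⟩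
  intro X _ _ K _ _ _ J P hsep hPJ hn
  obtain ⟨L, h1, h2, h3, h4, h5⟩ := h X K J P hsep hPJ hn
  exact ⟨L, h1, h2, h3, h4, h5⟩

end Pool.Agent.Results.MP_6aa5e3_an.NearContractiveProjection
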