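import Pool.Agent.H75.SG.Rep
import Pool.Agent.H75.SG.SigD
import Pool.Agent.H84.TE.MainE

/-!
# Complemented subspaces of `C(K)` which embed into `C(L)`, `L` countable compact: characterization

`X` a real normed space, `K` compact Hausdorff, `J : X → C(K)` and `P : C(K) → X` bounded linear with `P J = id`.
Equivalent: (a) `X` embeds isomorphically into `C(L)` for some countable compact Hausdorff `L`; (b) the unit ball of the
dual of `X` is small (`Pool.Agent.H75.SG.Small`); (c) some weak* compact bounded norming set of functionals is contained in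
a countable union of small sets; (d) for every `ε > 0` there is such an embedding with constant `‖P‖ ‖J‖ + ε`.
-/

namespace Pool.Agent.Results.MP_6aa5e3_an.SmallDualBall

open Pool.Agent.H75.SG

theorem result : ∀ (X : Type) [NormedAddCommGroup X] [NormedSpace ℝ X] (K : Type)
    [TopologicalSpace K] [CompactSpace K] [T2Space K] (J : X →L[ℝ] C(K, ℝ))
    (P : C(K, ℝ) →L[ℝ] X), (∀ x, P (J x) = x) →
    List.TFAE [EmbC X, SmallBall X, SigmaSmall X,
      ∀ ε : ℝ, 0 < ε → ∃ (L : Type) (_ : TopologicalSpace L) (_ : CompactSpace L)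
        (_ : T2Space L), Countable L ∧ ∃ S : X →L[ℝ] C(L, ℝ),
          ∀ x, ‖S x‖ ≤ ‖x‖ ∧ ‖x‖ ≤ (‖P‖ * ‖J‖ + ε) * ‖S x‖] := by
  intro X _ _ K _ _ _ J P hPJ
  tfae_have 1 → 2 := smallBall_of_emb
  tfae_have 2 → 3 := sigmaSmall_of_smallBall
  tfae_have 3 → 2 := smallBall_of_sigmaSmall
  tfae_have 2 → 4 := fun h ε hε =>
    Pool.Agent.H84.TE.main J P (separable_of_smallBall h) hPJ h ε hε
  tfae_have 4 → 1 := by
    intro h
    obtain ⟨L, h1, h2, h3, h4, S, hS⟩ := h 1 one_pos
    have hc : 0 < ‖P‖ * ‖J‖ + 1 := by positivity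
    refine ⟨L, h1, h2, h3, h4, S, (‖P‖ * ‖J‖ + 1)⁻¹, inv_pos.mpr hc, fun x => ?_⟩
    rw [inv_mul_le_iff₀ hc]
    exact (hS x).2
  tfae_finish

end Pool.Agent.Results.MP_6aa5e3_an.SmallDualBall
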